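import Pool.Agent.H990.SP.Frames
import Pool.Agent.H990.SF.Small

/-!
# Coordinates of fiducial vectors modulo `p`: definitions
-/

set_option autoImplicit false

namespace Pool.Agent.H990.SP

open Finset Pool.Agent.H207.WH Pool.Agent.H990.SF ComplexConjugate

variable {p : ℕ} [Fact p.Prime]

/-- The coordinates of a vector `u` in the basis number `k`: in the standard basis for `k = none`,
and `y ↦ ∑ x, u x * χ (q x ^ 2 + x y)` for `k = some q`. For odd `p` these are, up to constant
factors, the coordinates in the `p + 1` bases of common eigenvectors of displacement operators. -/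
def coordinates {K : Type*} [Field K] (χ : AddChar (ZMod p) K) (k : Option (ZMod p))
    (u : ZMod p → K) : ZMod p → K :=
  match k with
  | none => u
  | some q => fun y => ∑ x, u x * χ (q * x ^ 2 + x * y)

/-- Modulo the valuation ring `B`, the function `f`, multiplied by a suitable scalar, is the
polynomial function `x ↦ P (x)`, where `P` is a polynomial over the residue field of `B`. -/
def ReducesTo {K : Type*} [Field K] (B : ValuationSubring K) (f : ZMod p → K)
    (P : Polynomial (IsLocalRing.ResidueField B)) : Prop :=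
  ∃ (c : K) (h : ∀ x, c * f x ∈ B), ∀ x : ZMod p,
    IsLocalRing.residue B ⟨c * f x, h x⟩ = P.eval (x.val : IsLocalRing.ResidueField B)

/-- In the basis number `k` the coordinates of `w` and `u`, multiplied by suitable scalars, are
modulo `B` nonzero polynomial functions, the sum of whose degrees is at most `(p - 3) / 2`. The
coordinates of the linear form `w` are taken in the dual basis, that is, with the inverse of `χ`. -/
def LowDegree {K : Type*} [Field K] (B : ValuationSubring K) (χ : AddChar (ZMod p) K)
    (w u : ZMod p → K) (k : Option (ZMod p)) : Prop :=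
  ∃ P Q : Polynomial (IsLocalRing.ResidueField B), P ≠ 0 ∧ Q ≠ 0 ∧
    2 * (P.natDegree + Q.natDegree) + 3 ≤ p ∧
    ReducesTo B (coordinates χ⁻¹ k w) P ∧ ReducesTo B (coordinates χ k u) Q

/-- the number of coordinates of a vector of `ℂ ^ p` in the basis number `k` which are zero -/
noncomputable def zeroCount (ψ : ZMod p → ℂ) (k : Option (ZMod p)) : ℕ :=
  Nat.card {y : ZMod p // coordinates ZMod.stdAddChar k ψ y = 0}

theorem coordinates_eq {K : Type*} [Field K] [CharZero K] (χ : AddChar (ZMod p) K)
    (k : Option (ZMod p)) (u : ZMod p → K) : coordinates χ k u = coord χ k u := by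
  cases k <;> rfl

theorem reducesTo_of_red {K : Type*} [Field K] [CharZero K] (B : ValuationSubring K)
    (f : ZMod p → K) (P : Polynomial (IsLocalRing.ResidueField B)) (h : Red B p f P) :
    ReducesTo B f P := by
  obtain ⟨c, h1, h2⟩ := h
  refine ⟨c, h1, fun x => ?_⟩
  rw [← rs_of B (h1 x), h2]

theorem lowDegree (hp5 : 5 ≤ p) {K : Type*} [Field K] [CharZero K] {χ : AddChar (ZMod p) K}
    (hχ : χ.IsPrimitive) (B : ValuationSubring K) (hB : (p : K) ∈ B.nonunits)
    {w u : ZMod p → K} (hS : IsSolution χ w u) (k k' : Option (ZMod p)) (hk : k ≠ k') :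
    LowDegree B χ w u k ∨ LowDegree B χ w u k' := by
  have key : ∀ k, LowFrame B χ w u k → LowDegree B χ w u k := by
    rintro k ⟨P, Q, h1, h2, h3, h4, h5⟩
    refine ⟨P, Q, h1, h2, h3, ?_, ?_⟩
    · rw [coordinates_eq]; exact reducesTo_of_red B _ _ h4
    · rw [coordinates_eq]; exact reducesTo_of_red B _ _ h5
  exact (frames hp5 hB hχ (solution_sic hS) k k' hk).imp (key k) (key k')

theorem coordinates_conj (ψ : ZMod p → ℂ) (k : Option (ZMod p)) (y : ZMod p) :
    coordinates (ZMod.stdAddChar)⁻¹ k (fun j => conj (ψ j)) y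
      = conj (coordinates ZMod.stdAddChar k ψ y) := by
  cases k with
  | none => rfl
  | some q =>
    show ∑ x, conj (ψ x) * (ZMod.stdAddChar)⁻¹ (q * x ^ 2 + x * y) = _
    rw [show coordinates ZMod.stdAddChar (some q) ψ y
      = ∑ x, ψ x * ZMod.stdAddChar (q * x ^ 2 + x * y) from rfl, map_sum]
    apply Finset.sum_congr rfl
    intro x _
    rw [map_mul, AddChar.inv_apply, AddChar.map_neg_eq_conj]

theorem zeros_card {K : Type*} [Field K] [CharZero K] (B : ValuationSubring K)
    (hB : (p : K) ∈ B.nonunits) (f : ZMod p → K) (P : Polynomial (IsLocalRing.ResidueField B))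
    (hP : P ≠ 0) (h : ReducesTo B f P) : Nat.card {y : ZMod p // f y = 0} ≤ P.natDegree := by
  classical
  have hch := char_res B hB
  obtain ⟨c, h1, h2⟩ := h
  rw [Nat.card_eq_fintype_card, Fintype.card_subtype]
  apply zeros_le P hP
  intro x hx
  rw [Finset.mem_filter] at hx
  rw [em_val, ← h2 x]
  have h3 : (⟨c * f x, h1 x⟩ : B) = 0 := Subtype.ext (by
    show c * f x = 0
    rw [hx.2, mul_zero])
  rw [h3, map_zero]

theorem zeroCount_le (hp5 : 5 ≤ p) {ψ : ZMod p → ℂ} (hψ : IsFiducial ψ) (k k' : Option (ZMod p))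
    (hk : k ≠ k') : 4 * zeroCount ψ k + 3 ≤ p ∨ 4 * zeroCount ψ k' + 3 ≤ p := by
  obtain ⟨B, hB⟩ := exists_val_char ℂ p
  have key : ∀ k, LowDegree B ZMod.stdAddChar (fun j => conj (ψ j)) ψ k →
      4 * zeroCount ψ k + 3 ≤ p := by
    rintro k ⟨P, Q, h1, h2, h3, h4, h5⟩
    have h6 := zeros_card B hB _ _ h1 h4
    have h7 := zeros_card B hB _ _ h2 h5
    have h8 : Nat.card {y : ZMod p //
        coordinates (ZMod.stdAddChar)⁻¹ k (fun j => conj (ψ j)) y = 0} = zeroCount ψ k := by
      rw [zeroCount]
      apply Nat.card_congr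
      apply Equiv.subtypeEquivRight
      intro y
      rw [coordinates_conj, map_eq_zero]
    rw [h8] at h6
    rw [← zeroCount] at h7
    omega
  exact (lowDegree hp5 (ZMod.isPrimitive_stdAddChar p) B hB (fiducial_solution hψ) k k' hk).imp
    (key k) (key k')

end Pool.Agent.H990.SP
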