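import Pool.Agent.H990.SP.Mom
import Pool.Agent.H990.SF.Places

/-!
# The coordinates in the stabilizer bases modulo a place over `p`
-/

set_option autoImplicit false
set_option linter.unusedSectionVars false
set_option linter.unusedVariables false

namespace Pool.Agent.H990.SP

open Finset Pool.Agent.H207.WH Pool.Agent.H990.SF

variable {L : Type*} [Field L] [CharZero L] {B : ValuationSubring L} {p : ℕ} [Fact p.Prime]

/-- `f` reduces, after multiplication by a scalar, to the polynomial function `P` -/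
def Red (B : ValuationSubring L) (p : ℕ) [Fact p.Prime] (f : ZMod p → L)
    (P : Polynomial (IsLocalRing.ResidueField B)) : Prop :=
  ∃ c : L, (∀ x, c * f x ∈ B) ∧ ∀ x : ZMod p, rs B (c * f x) = P.eval ((x.val : ℕ) : IsLocalRing.ResidueField B)

/-- the pair reduces to polynomials of low degree -/
def LowPair (B : ValuationSubring L) (w u : ZMod p → L) : Prop :=
  ∃ P Q : Polynomial (IsLocalRing.ResidueField B), P ≠ 0 ∧ Q ≠ 0 ∧
    2 * (P.natDegree + Q.natDegree) + 3 ≤ p ∧ Red B p w P ∧ Red B p u Q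

theorem em_val [CharP (IsLocalRing.ResidueField B) p] (x : ZMod p) :
    em p (IsLocalRing.ResidueField B) x = ((x.val : ℕ) : IsLocalRing.ResidueField B) := by
  rw [em, ZMod.castHom_apply, ZMod.natCast_val]

theorem ov_zero_right (χ : AddChar (ZMod p) L) (w u : ZMod p → L) (a : ZMod p) :
    ov χ w u a 0 = ∑ x, w x * u (x + a) := by
  rw [ov]
  apply Finset.sum_congr rfl
  intro x _
  rw [zero_mul, AddChar.map_zero_eq_one, mul_one]

theorem val_c (hB : (p : L) ∈ B.nonunits) : B.valuation ((p : L) + 1)⁻¹ = 1 := by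
  rw [map_inv₀, val_p1 B hB, inv_one]

theorem val_two_c (hB : (p : L) ∈ B.nonunits) : B.valuation (2 * ((p : L) + 1)⁻¹) ≤ 1 := by
  rw [map_mul, val_c hB, mul_one]
  have := nat_mem B 2
  rw [← B.valuation_le_one_iff] at this
  exact_mod_cast this

/-- **Dichotomy.** -/
theorem dich (hp2 : p ≠ 2) (hB : (p : L) ∈ B.nonunits) {χ : AddChar (ZMod p) L}
    (hχ : χ.IsPrimitive) {w u : ZMod p → L} (hS : Sic χ w u) (m0 : L)
    (hm : ∀ a b, B.valuation (ov χ w u a b) ≤ B.valuation m0) :
    LowPair B w u ∨ ∀ x y, B.valuation (w x * u y) ≤ B.valuation m0 := by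
  classical
  have hp : p.Prime := Fact.out
  have := char_res B hB
  obtain ⟨x0, -, hx0⟩ := Finset.exists_max_image (univ : Finset (ZMod p))
    (fun x => B.valuation (w x)) ⟨0, mem_univ _⟩
  obtain ⟨y0, -, hy0⟩ := Finset.exists_max_image (univ : Finset (ZMod p))
    (fun y => B.valuation (u y)) ⟨0, mem_univ _⟩
  have hx0' : ∀ x, B.valuation (w x) ≤ B.valuation (w x0) := fun x => hx0 x (mem_univ x)
  have hy0' : ∀ y, B.valuation (u y) ≤ B.valuation (u y0) := fun y => hy0 y (mem_univ y)
  by_cases hcase : B.valuation (w x0 * u y0) ≤ B.valuation m0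
  · right
    intro x y
    refine le_trans ?_ hcase
    rw [map_mul, map_mul]
    exact mul_le_mul_of_nonneg' (hx0' x) (hy0' y) zero_le zero_le
  left
  push Not at hcase
  have h1m : 1 ≤ B.valuation m0 := by
    have := hm 0 0
    rwa [hS.zero, map_one] at this
  have hN1 : 1 < B.valuation (w x0 * u y0) := lt_of_le_of_lt h1m hcase
  have hwu : w x0 * u y0 ≠ 0 := by
    intro h; rw [h, map_zero] at hN1; exact not_lt_of_ge zero_le hN1
  have hw0 : w x0 ≠ 0 := left_ne_zero_of_mul hwu
  have hu0 : u y0 ≠ 0 := right_ne_zero_of_mul hwu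
  have hvw : 0 < B.valuation (w x0) := zero_lt_iff.mpr ((map_ne_zero _).mpr hw0)
  have hvu : 0 < B.valuation (u y0) := zero_lt_iff.mpr ((map_ne_zero _).mpr hu0)
  have mw : ∀ x, w x / w x0 ∈ B := by
    intro x
    rw [← B.valuation_le_one_iff, map_div₀, div_le_one₀ hvw]
    exact hx0' x
  have mu : ∀ x, u x / u y0 ∈ B := by
    intro x
    rw [← B.valuation_le_one_iff, map_div₀, div_le_one₀ hvu]
    exact hy0' x
  obtain ⟨P, hPd, hP⟩ := exists_poly (k := IsLocalRing.ResidueField B)
    (fun x : ZMod p => rs B (w x / w x0))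
  obtain ⟨Q, hQd, hQ⟩ := exists_poly (k := IsLocalRing.ResidueField B)
    (fun x : ZMod p => rs B (u x / u y0))
  have hP0 : P ≠ 0 := by
    rintro rfl
    have h1 := hP x0
    rw [Polynomial.eval_zero, div_self hw0, rs_one] at h1
    exact zero_ne_one h1
  have hQ0 : Q ≠ 0 := by
    rintro rfl
    have h1 := hQ y0
    rw [Polynomial.eval_zero, div_self hu0, rs_one] at h1
    exact zero_ne_one h1
  have hlow := low P Q hP0 hQ0 hPd hQd (by
    intro a
    simp_rw [hP, hQ]
    have h1 : ∀ x, rs B (w x / w x0) * rs B (u (x + a) / u y0)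
        = rs B ((w x * u (x + a)) / (w x0 * u y0)) := by
      intro x
      rw [← rs_mul B (mw x) (mu _), div_mul_div_comm]
    simp_rw [h1]
    rw [← rs_sum B _ _ (fun x _ => by
      have := B.mul_mem _ _ (mw x) (mu (x + a))
      rwa [div_mul_div_comm] at this), ← Finset.sum_div, ← ov_zero_right χ]
    have h2 : B.valuation (ov χ w u a 0 / (w x0 * u y0)) < 1 := by
      rw [map_div₀, div_lt_one₀ (zero_lt_iff.mpr ((map_ne_zero _).mpr hwu))]
      exact lt_of_le_of_lt (hm a 0) hcase
    exact (rs_eq_zero_val B ((B.valuation_le_one_iff _).mp h2.le)).mpr h2) (by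
    intro a
    simp_rw [hP, hQ]
    have h1 : ∀ x, (rs B (w x / w x0) * rs B (u x / u y0)) *
        (rs B (w (x + a) / w x0) * rs B (u (x + a) / u y0))
        = rs B (((w x * u x) * (w (x + a) * u (x + a))) / ((w x0 * u y0) * (w x0 * u y0))) := by
      intro x
      rw [← rs_mul B (mw x) (mu _), ← rs_mul B (mw (x + a)) (mu _),
        ← rs_mul B (B.mul_mem _ _ (mw x) (mu _)) (B.mul_mem _ _ (mw (x + a)) (mu _))]
      congr 1
      field_simp
    simp_rw [h1]
    rw [← rs_sum B _ _ (fun x _ => by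
      have := B.mul_mem _ _ (B.mul_mem _ _ (mw x) (mu x)) (B.mul_mem _ _ (mw (x + a)) (mu (x + a)))
      rwa [div_mul_div_comm, div_mul_div_comm, div_mul_div_comm] at this), ← Finset.sum_div]
    have h0 := four_terms_zero hχ hS a
    simp only [add_zero] at h0
    rw [h0]
    have h2 : B.valuation ((if a = 0 then 2 * ((p : L) + 1)⁻¹ else ((p : L) + 1)⁻¹) /
        ((w x0 * u y0) * (w x0 * u y0))) < 1 := by
      rw [map_div₀, map_mul, div_lt_one₀ (mul_pos (zero_lt_one.trans hN1) (zero_lt_one.trans hN1))]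
      refine lt_of_le_of_lt ?_ (one_lt_mul_of_lt_of_le hN1 hN1.le)
      split_ifs
      · exact val_two_c hB
      · exact (val_c hB).le
    exact (rs_eq_zero_val B ((B.valuation_le_one_iff _).mp h2.le)).mpr h2)
  refine ⟨P, Q, hP0, hQ0, ?_, ⟨(w x0)⁻¹, ?_, ?_⟩, ⟨(u y0)⁻¹, ?_, ?_⟩⟩
  · rcases hp.eq_two_or_odd with h | h
    · exact absurd h hp2
    · omega
  · intro x
    have := mw x
    rwa [div_eq_inv_mul] at this
  · intro x
    rw [← em_val, hP, div_eq_inv_mul]
  · intro x
    have := mu x
    rwa [div_eq_inv_mul] at this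
  · intro x
    rw [← em_val, hQ, div_eq_inv_mul]

/-- in a good frame the overlaps do not depend on the second index -/
theorem good_inv (hB : (p : L) ∈ B.nonunits) (χ : AddChar (ZMod p) L) {w u : ZMod p → L} (m0 : L)
    (hm0 : m0 ≠ 0) (h : ∀ x y, B.valuation (w x * u y) ≤ B.valuation m0) (a b : ZMod p) :
    rs B (ov χ w u a b / m0) = rs B (ov χ w u a 0 / m0) := by
  have hmem : ∀ x y, w x * u y / m0 ∈ B := by
    intro x y
    rw [← B.valuation_le_one_iff, map_div₀, div_le_one₀ (zero_lt_iff.mpr ((map_ne_zero _).mpr hm0))]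
    exact h x y
  have h1 : ∀ b, rs B (ov χ w u a b / m0) = ∑ x, rs B (w x * u (x + a) / m0) := by
    intro b
    rw [ov, Finset.sum_div]
    have e1 : ∀ x, w x * u (x + a) * χ (b * x) / m0 = (w x * u (x + a) / m0) * χ (b * x) := by
      intro x; ring
    simp_rw [e1]
    rw [rs_sum B _ _ (fun x _ => B.mul_mem _ _ (hmem x _) (chi_mem B χ _))]
    apply Finset.sum_congr rfl
    intro x _
    rw [rs_mul B (hmem x _) (chi_mem B χ _), rs_chi B hB, mul_one]
  rw [h1, h1]

/-- a frame with integral entries and overlaps congruent to one -/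
theorem good_const (hp5 : 5 ≤ p) (hB : (p : L) ∈ B.nonunits) {χ : AddChar (ZMod p) L}
    (hχ : χ.IsPrimitive) {w u : ZMod p → L} (hS : Sic χ w u)
    (h : ∀ x y, B.valuation (w x * u y) ≤ 1) (h1 : ∀ a, rs B (ov χ w u a 0) = 1) : False := by
  classical
  have hp : p.Prime := Fact.out
  have hch := char_res B hB
  obtain ⟨x0, -, hx0⟩ := Finset.exists_max_image (univ : Finset (ZMod p))
    (fun x => B.valuation (w x)) ⟨0, mem_univ _⟩
  have hx0' : ∀ x, B.valuation (w x) ≤ B.valuation (w x0) := fun x => hx0 x (mem_univ x)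
  have hw0 : w x0 ≠ 0 := by
    intro h0
    have h2 : ∀ x, w x = 0 := by
      intro x
      have := hx0' x
      rw [h0, map_zero] at this
      exact (map_eq_zero _).mp (le_antisymm this zero_le)
    have h3 := hS.zero
    rw [ov] at h3
    simp only [h2, zero_mul, Finset.sum_const_zero] at h3
    exact zero_ne_one h3
  have hvw : 0 < B.valuation (w x0) := zero_lt_iff.mpr ((map_ne_zero _).mpr hw0)
  have mw : ∀ x, w x / w x0 ∈ B := by
    intro x
    rw [← B.valuation_le_one_iff, map_div₀, div_le_one₀ hvw]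
    exact hx0' x
  have mu : ∀ x, w x0 * u x ∈ B := by
    intro x
    rw [← B.valuation_le_one_iff]
    exact h x0 x
  have mwu : ∀ x y, w x * u y ∈ B := by
    intro x y
    rw [← B.valuation_le_one_iff]
    exact h x y
  have e : ∀ x y, rs B (w x / w x0) * rs B (w x0 * u y) = rs B (w x * u y) := by
    intro x y
    rw [← rs_mul B (mw x) (mu y)]
    congr 1
    field_simp
  have hc2 : rs B (2 * ((p : L) + 1)⁻¹) = 2 := by
    have hm2 : (2 : L) ∈ B := by
      have := nat_mem B 2
      exact_mod_cast this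
    rw [rs_mul B hm2 (mem_of_val B (val_c hB)), rs_p1 B hB, mul_one]
    have := rs_nat B 2
    exact_mod_cast this
  refine no_const (k := IsLocalRing.ResidueField B) hp5 (fun x : ZMod p => rs B (w x / w x0))
    (fun x : ZMod p => rs B (w x0 * u x)) ?_ ?_ ?_
  · intro a
    simp_rw [e]
    rw [← rs_sum B _ _ (fun x _ => mwu _ _), ← ov_zero_right χ, h1]
  · intro a
    have e2 : ∀ x, rs B (w x / w x0) ^ 2 * (rs B (w x0 * u (x + a)) * rs B (w x0 * u (x - a)))
        = rs B ((w x * u (x + a)) * (w x * u (x - a))) := by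
      intro x
      rw [rs_mul B (mwu _ _) (mwu _ _), ← e x (x + a), ← e x (x - a)]
      ring
    simp_rw [e2]
    rw [← rs_sum B _ _ (fun x _ => B.mul_mem _ _ (mwu _ _) (mwu _ _))]
    by_cases ha : a = 0
    · rw [if_pos ha, ha]
      have h0 := four_terms_zero hχ hS 0
      simp only [add_zero, if_true, sub_zero] at h0 ⊢
      rw [h0, hc2]
    · rw [if_neg ha]
      have h0 := four_terms hχ hS a 0 ha
      rw [if_neg (Ne.symm ha)] at h0
      simp only [add_zero, ← sub_eq_add_neg] at h0
      rw [h0, rs_zero]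
  · intro a
    have e2 : ∀ x, rs B (w x0 * u x) ^ 2 * (rs B (w (x + a) / w x0) * rs B (w (x - a) / w x0))
        = rs B ((w (x - a) * u x) * (w (x + a) * u x)) := by
      intro x
      rw [rs_mul B (mwu _ _) (mwu _ _), ← e (x - a) x, ← e (x + a) x]
      ring
    simp_rw [e2]
    rw [← rs_sum B _ _ (fun x _ => B.mul_mem _ _ (mwu _ _) (mwu _ _))]
    by_cases ha : a = 0
    · rw [if_pos ha, ha]
      have h0 := four_terms_zero hχ hS 0
      simp only [add_zero, if_true, sub_zero] at h0 ⊢
      rw [h0, hc2]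
    · rw [if_neg ha]
      have h0 := four_terms hχ hS a (a + a) ha
      rw [if_neg (fun h2 => ha (by
        have : a + a = a + 0 := by rw [h2, add_zero]
        exact add_left_cancel this))] at h0
      rw [← Equiv.sum_comp (Equiv.subRight a)] at h0
      simp only [Equiv.subRight_apply, sub_add_cancel] at h0
      have e3 : ∀ x, w (x - a) * u x * (w (x - a + (a + a)) * u (x - a + (a + a) + -a))
          = (w (x - a) * u x) * (w (x + a) * u x) := by
        intro x
        have e4 : x - a + (a + a) = x + a := by ring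
        have e5 : x - a + (a + a) + -a = x := by ring
        rw [e4]
        have e6 : x + a + -a = x := by ring
        rw [e6]
      simp_rw [e3] at h0
      rw [h0, rs_zero]

/-- coordinates in the bases of eigenvectors of the displacement operators -/
def coord (χ : AddChar (ZMod p) L) : Option (ZMod p) → (ZMod p → L) → ZMod p → L
  | none, u => u
  | some q, u => fun y => ∑ x, u x * χ (q * x ^ 2 + x * y)

theorem ov_coord {χ : AddChar (ZMod p) L} (hχ : χ.IsPrimitive) (w u : ZMod p → L) (q a b : ZMod p) :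
    ov χ (fun y => (p : L)⁻¹ * coord χ⁻¹ (some q) w y) (coord χ (some q) u) a b
      = χ (q * b ^ 2 - a * b) * ov χ w u (-b) (a - 2 * q * b) := by
  have hp : p.Prime := Fact.out
  have hp0 : (p : L) ≠ 0 := by exact_mod_cast hp.ne_zero
  rw [ov]
  simp only [coord, AddChar.inv_apply]
  calc ∑ y, ((p : L)⁻¹ * ∑ x, w x * χ (-(q * x ^ 2 + x * y))) *
        (∑ x, u x * χ (q * x ^ 2 + x * (y + a))) * χ (b * y)
      = ∑ y, ∑ x, ∑ x', ((p : L)⁻¹ * (w x * u x' * (χ (-(q * x ^ 2)) * χ (q * x' ^ 2) *
          χ (x' * a)))) * χ (y * (x' - x + b)) := by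
        apply Finset.sum_congr rfl
        intro y _
        rw [mul_assoc, mul_assoc, Finset.sum_mul, Finset.mul_sum]
        apply Finset.sum_congr rfl
        intro x _
        rw [Finset.sum_mul, Finset.mul_sum, Finset.mul_sum]
        apply Finset.sum_congr rfl
        intro x' _
        have e1 : χ (-(q * x ^ 2)) * χ (q * x' ^ 2) * χ (x' * a) * χ (y * (x' - x + b))
            = χ (-(q * x ^ 2 + x * y)) * χ (q * x' ^ 2 + x' * (y + a)) * χ (b * y) := by
          rw [← AddChar.map_add_eq_mul, ← AddChar.map_add_eq_mul, ← AddChar.map_add_eq_mul,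
            ← AddChar.map_add_eq_mul, ← AddChar.map_add_eq_mul]
          congr 1; ring
        calc _ = (p : L)⁻¹ * (w x * u x') *
              (χ (-(q * x ^ 2 + x * y)) * χ (q * x' ^ 2 + x' * (y + a)) * χ (b * y)) := by ring
          _ = _ := by rw [← e1]; ring
    _ = ∑ x, ∑ x', ((p : L)⁻¹ * (w x * u x' * (χ (-(q * x ^ 2)) * χ (q * x' ^ 2) *
          χ (x' * a)))) * ∑ y, χ (y * (x' - x + b)) := by
        rw [Finset.sum_comm]
        apply Finset.sum_congr rfl
        intro x _
        rw [Finset.sum_comm]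
        apply Finset.sum_congr rfl
        intro x' _
        rw [Finset.mul_sum]
    _ = ∑ x, (w x * u (x - b) * (χ (-(q * x ^ 2)) * χ (q * (x - b) ^ 2) * χ ((x - b) * a))) := by
        apply Finset.sum_congr rfl
        intro x _
        rw [Finset.sum_eq_single (x - b)]
        · rw [sum_chi hχ, if_pos (by ring)]
          field_simp
        · intro y _ hy
          rw [sum_chi hχ, if_neg, mul_zero]
          intro h
          apply hy
          linear_combination h
        · intro h; exact absurd (mem_univ _) h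
    _ = _ := by
        rw [ov, Finset.mul_sum]
        apply Finset.sum_congr rfl
        intro x _
        have e1 : χ (-(q * x ^ 2)) * χ (q * (x - b) ^ 2) * χ ((x - b) * a)
            = χ (q * b ^ 2 - a * b) * χ ((a - 2 * q * b) * x) := by
          rw [← AddChar.map_add_eq_mul, ← AddChar.map_add_eq_mul, ← AddChar.map_add_eq_mul]
          congr 1; ring
        rw [e1, ← sub_eq_add_neg]
        ring

theorem sic_coord {χ : AddChar (ZMod p) L} (hχ : χ.IsPrimitive)
    {w u : ZMod p → L} (hS : Sic χ w u) (q : ZMod p) :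
    Sic χ (fun y => (p : L)⁻¹ * coord χ⁻¹ (some q) w y) (coord χ (some q) u) := by
  refine ⟨?_, ?_⟩
  · rw [ov_coord hχ]
    simp only [mul_zero, neg_zero, sub_zero, zero_pow two_ne_zero, AddChar.map_zero_eq_one]
    rw [hS.zero, mul_one]
  · intro a b hab
    rw [ov_coord hχ, ov_coord hχ]
    have hab' : ¬ (-b = 0 ∧ a - 2 * q * b = 0) := by
      rintro ⟨h1, h2⟩
      have h3 : b = 0 := neg_eq_zero.mp h1
      rw [h3, mul_zero, sub_zero] at h2
      exact hab ⟨h2, h3⟩
    have h1 := hS.flat (-b) (a - 2 * q * b) hab'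
    have e1 : -(a - 2 * q * b) = -a - 2 * q * -b := by ring
    rw [e1] at h1
    calc _ = (χ (q * b ^ 2 - a * b) * χ (q * (-b) ^ 2 - -a * -b)) *
          (ov χ w u (-b) (a - 2 * q * b) * ov χ w u (- -b) (-a - 2 * q * -b)) := by ring
      _ = _ := by
        rw [h1, ← mul_assoc, ← AddChar.map_add_eq_mul, ← AddChar.map_add_eq_mul]
        congr 2; ring

theorem red_smul (B : ValuationSubring L) (f : ZMod p → L) (c : L) (hc : c ≠ 0)
    (P : Polynomial (IsLocalRing.ResidueField B)) (h : Red B p (fun y => c * f y) P) :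
    Red B p f P := by
  obtain ⟨d, h1, h2⟩ := h
  refine ⟨d * c, fun x => ?_, fun x => ?_⟩
  · rw [mul_assoc]; exact h1 x
  · rw [mul_assoc]; exact h2 x

/-- the coordinates in the frame `k` reduce to polynomials of low degree -/
def LowFrame (B : ValuationSubring L) (χ : AddChar (ZMod p) L) (w u : ZMod p → L)
    (k : Option (ZMod p)) : Prop := LowPair B (coord χ⁻¹ k w) (coord χ k u)

/-- **Frames.** For two different frames, the coordinates in one of them reduce to polynomials of
low degree. -/
theorem frames (hp5 : 5 ≤ p) (hB : (p : L) ∈ B.nonunits) {χ : AddChar (ZMod p) L}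
    (hχ : χ.IsPrimitive) {w u : ZMod p → L} (hS : Sic χ w u) (k k' : Option (ZMod p))
    (hk : k ≠ k') : LowFrame B χ w u k ∨ LowFrame B χ w u k' := by
  classical
  have hp : p.Prime := Fact.out
  have hp2 : p ≠ 2 := by omega
  have hp0 : (p : L)⁻¹ ≠ 0 := inv_ne_zero (by exact_mod_cast hp.ne_zero)
  have h20 : (2 : ZMod p) ≠ 0 := by
    intro h
    have h3 : ((2 : ℕ) : ZMod p) = 0 := by exact_mod_cast h
    rw [ZMod.natCast_eq_zero_iff] at h3
    exact hp2 ((Nat.prime_dvd_prime_iff_eq hp Nat.prime_two).mp h3)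
  obtain ⟨⟨a0, b0⟩, -, hab⟩ := Finset.exists_max_image (univ : Finset (ZMod p × ZMod p))
    (fun g => B.valuation (ov χ w u g.1 g.2)) ⟨0, mem_univ _⟩
  set m0 := ov χ w u a0 b0 with hm0d
  have hm : ∀ a b, B.valuation (ov χ w u a b) ≤ B.valuation m0 := fun a b => hab (a, b) (mem_univ _)
  have hm0 : m0 ≠ 0 := ov_ne hS _ _
  have hmem : ∀ a b, ov χ w u a b / m0 ∈ B := by
    intro a b
    rw [← B.valuation_le_one_iff, map_div₀, div_le_one₀ (zero_lt_iff.mpr ((map_ne_zero _).mpr hm0))]
    exact hm a b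
  -- all frames
  have hfr : ∀ k : Option (ZMod p), ∃ w1 u1 : ZMod p → L, Sic χ w1 u1 ∧
      (LowPair B w1 u1 → LowFrame B χ w u k) ∧
      ∀ a b, ∃ j, ov χ w1 u1 a b = χ j * (match k with
        | none => ov χ w u a b
        | some q => ov χ w u (-b) (a - 2 * q * b)) := by
    intro k
    cases k with
    | none =>
      refine ⟨w, u, hS, fun h => h, fun a b => ⟨0, ?_⟩⟩
      rw [AddChar.map_zero_eq_one, one_mul]
    | some q =>
      refine ⟨_, _, sic_coord hχ hS q, ?_, fun a b => ⟨_, ov_coord hχ w u q a b⟩⟩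
      rintro ⟨P, Q, h1, h2, h3, h4, h5⟩
      exact ⟨P, Q, h1, h2, h3, red_smul B _ _ hp0 P h4, h5⟩
  -- a frame which is not low
  have hgood : ∀ k : Option (ZMod p), ¬ LowFrame B χ w u k →
      (match k with
        | none => ∀ a b, rs B (ov χ w u a b / m0) = rs B (ov χ w u a 0 / m0)
        | some q => ∀ a b, rs B (ov χ w u (-b) (a - 2 * q * b) / m0) = rs B (ov χ w u 0 a / m0)) ∧
      ∃ w1 u1 : ZMod p → L, Sic χ w1 u1 ∧ (∀ x y, B.valuation (w1 x * u1 y) ≤ B.valuation m0) ∧
        ∀ a b, ∃ j c d, ov χ w1 u1 a b = χ j * ov χ w u c d := by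
    intro k hk
    obtain ⟨w1, u1, hS1, hlow, hov⟩ := hfr k
    have hm1 : ∀ a b, B.valuation (ov χ w1 u1 a b) ≤ B.valuation m0 := by
      intro a b
      obtain ⟨j, hj⟩ := hov a b
      rw [hj, val_chi_mul]
      cases k with
      | none => exact hm _ _
      | some q => exact hm _ _
    have hent : ∀ x y, B.valuation (w1 x * u1 y) ≤ B.valuation m0 := by
      rcases dich hp2 hB hχ hS1 m0 hm1 with h | h
      · exact absurd (hlow h) hk
      · exact h
    have hinv := good_inv hB χ m0 hm0 hent
    refine ⟨?_, w1, u1, hS1, hent, ?_⟩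
    · cases k with
      | none =>
        intro a b
        have h1 := hinv a b
        obtain ⟨j, hj⟩ := hov a b
        obtain ⟨j', hj'⟩ := hov a 0
        simp only at hj hj'
        rw [hj, hj', mul_div_assoc, mul_div_assoc, rs_mul B (chi_mem B χ _) (hmem _ _),
          rs_mul B (chi_mem B χ _) (hmem _ _), rs_chi B hB, rs_chi B hB, one_mul, one_mul] at h1
        exact h1
      | some q =>
        intro a b
        have h1 := hinv a b
        obtain ⟨j, hj⟩ := hov a b
        obtain ⟨j', hj'⟩ := hov a 0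
        simp only at hj hj'
        rw [hj, hj', mul_div_assoc, mul_div_assoc, rs_mul B (chi_mem B χ _) (hmem _ _),
          rs_mul B (chi_mem B χ _) (hmem _ _), rs_chi B hB, rs_chi B hB, one_mul, one_mul,
          mul_zero, neg_zero, sub_zero] at h1
        exact h1
    · intro a b
      obtain ⟨j, hj⟩ := hov a b
      cases k with
      | none => exact ⟨j, _, _, hj⟩
      | some q => exact ⟨j, _, _, hj⟩
  by_contra hcon
  push Not at hcon
  obtain ⟨g1, w1, u1, hS1, hent1, hov1⟩ := hgood k hcon.1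
  obtain ⟨g2, -⟩ := hgood k' hcon.2
  -- the overlaps are constant
  have hsome : ∀ q : ZMod p, (∀ a b, rs B (ov χ w u (-b) (a - 2 * q * b) / m0)
      = rs B (ov χ w u 0 a / m0)) → ∀ a b, rs B (ov χ w u a b / m0)
      = rs B (ov χ w u 0 (b - 2 * q * a) / m0) := by
    intro q h a b
    have h1 := h (b - 2 * q * a) (-a)
    rw [neg_neg] at h1
    rw [← h1]
    congr 3; ring
  have hconst : ∀ a b, rs B (ov χ w u a b / m0) = rs B (ov χ w u 0 0 / m0) := by
    rcases k with _ | q
    · rcases k' with _ | q'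
      · exact absurd rfl hk
      · simp only at g1 g2
        intro a b
        rw [hsome q' g2 a b, g1]
    · rcases k' with _ | q'
      · simp only at g1 g2
        intro a b
        rw [hsome q g1 a b, g2]
      · simp only at g1 g2
        have hqq : q ≠ q' := fun h => hk (congrArg some h)
        have hd : 2 * (q - q') ≠ 0 := mul_ne_zero h20 (sub_ne_zero.mpr hqq)
        have h0 : ∀ c, rs B (ov χ w u 0 c / m0) = rs B (ov χ w u 0 0 / m0) := by
          intro c
          have h1 := hsome q g1 (-(c / (2 * (q - q')))) (c - 2 * q * (c / (2 * (q - q'))))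
          have h2 := hsome q' g2 (-(c / (2 * (q - q')))) (c - 2 * q * (c / (2 * (q - q'))))
          rw [h1] at h2
          have e1 : c - 2 * q * (c / (2 * (q - q'))) - 2 * q * -(c / (2 * (q - q'))) = c := by ring
          have e2 : c - 2 * q * (c / (2 * (q - q'))) - 2 * q' * -(c / (2 * (q - q'))) = 0 := by
            field_simp
            ring
          rw [e1, e2] at h2
          exact h2
        intro a b
        rw [hsome q g1 a b, h0]
  have h1 : rs B (ov χ w u 0 0 / m0) = 1 := by
    rw [← hconst a0 b0, ← hm0d, div_self hm0, rs_one]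
  have h2 : rs B (m0⁻¹) = 1 := by
    rw [hS.zero, one_div] at h1
    exact h1
  have hmi : m0⁻¹ ∈ B := by
    have := hmem 0 0
    rwa [hS.zero, one_div] at this
  have h3 : B.valuation m0⁻¹ = 1 := by
    rw [← rs_ne_zero_val B hmi, h2]
    exact one_ne_zero
  have h4 : B.valuation m0 = 1 := by
    rw [map_inv₀] at h3
    exact inv_eq_one.mp h3
  have h5 : rs B m0 = 1 := by
    have := rs_inv B h4
    rw [h2] at this
    exact inv_eq_one.mp this.symm
  have h6 : ∀ a b, rs B (ov χ w u a b) = 1 := by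
    intro a b
    have e1 : ov χ w u a b = ov χ w u a b / m0 * m0 := by rw [div_mul_cancel₀ _ hm0]
    rw [e1, rs_mul B (hmem a b) (mem_of_val B h4), hconst, h1, h5, one_mul]
  have h7 : ∀ a b, ov χ w u a b ∈ B := by
    intro a b
    rw [← B.valuation_le_one_iff, ← h4]
    exact hm a b
  apply good_const hp5 hB hχ hS1 (fun x y => by rw [← h4]; exact hent1 x y)
  intro a
  obtain ⟨j, c, d, hj⟩ := hov1 a 0
  rw [hj, rs_mul B (chi_mem B χ _) (h7 _ _), rs_chi B hB, h6, one_mul]

end Pool.Agent.H990.SP
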