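import Mathlib

/-!
# Functions on `F_p` with values in a field of characteristic `p`: moments and degrees
-/

set_option autoImplicit false
set_option linter.unusedSectionVars false

namespace Pool.Agent.H990.SP

open Finset Polynomial

variable {p : ℕ} [Fact p.Prime] {k : Type*} [Field k] [CharP k p]

/-- the embedding of the prime field -/
def em (p : ℕ) [Fact p.Prime] (k : Type*) [Field k] [CharP k p] : ZMod p →+* k :=
  ZMod.castHom (dvd_refl p) k

theorem em_inj : Function.Injective (em p k) := (em p k).injective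

/-- sums of small powers -/
theorem sum_pow_lt (n : ℕ) (hn : n < p - 1) : ∑ x : ZMod p, (em p k x) ^ n = 0 := by
  have h := FiniteField.sum_pow_lt_card_sub_one (ZMod p) n (by rwa [ZMod.card])
  have h2 := congrArg (em p k) h
  rw [map_sum, map_zero] at h2
  rw [← h2]
  exact Finset.sum_congr rfl (fun x _ => (map_pow _ _ _).symm)

theorem sum_pow_top : ∑ x : ZMod p, (em p k x) ^ (p - 1) = -1 := by
  have hp : p.Prime := Fact.out
  have h1 : ∀ x : ZMod p, (em p k x) ^ (p - 1) = if x = 0 then 0 else 1 := by
    intro x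
    by_cases hx : x = 0
    · rw [if_pos hx, hx, map_zero, zero_pow]
      have := hp.two_le
      omega
    · rw [if_neg hx, ← map_pow, ZMod.pow_card_sub_one_eq_one hx, map_one]
  simp_rw [h1]
  have h2 : ∑ x : ZMod p, (if x = 0 then (0 : k) else 1) = ∑ x : ZMod p, (1 - if x = 0 then (1 : k) else 0) := by
    apply Finset.sum_congr rfl
    intro x _
    split_ifs <;> simp
  rw [h2, Finset.sum_sub_distrib, Finset.sum_ite_eq' univ (0 : ZMod p), if_pos (mem_univ _),
    Finset.sum_const, Finset.card_univ, ZMod.card, nsmul_eq_mul, CharP.cast_eq_zero]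
  ring

/-- sums of the values of polynomials of degree at most `p - 1` -/
theorem sum_poly (P : k[X]) (hP : P.natDegree ≤ p - 1) :
    ∑ x : ZMod p, P.eval (em p k x) = -P.coeff (p - 1) := by
  have hp : p.Prime := Fact.out
  have h1 : ∀ x : ZMod p, P.eval (em p k x)
      = ∑ i ∈ range (p - 1 + 1), P.coeff i * (em p k x) ^ i := by
    intro x
    exact Polynomial.eval_eq_sum_range' (by omega) _
  simp_rw [h1]
  rw [Finset.sum_comm, Finset.sum_range_succ]
  simp_rw [← Finset.mul_sum]
  rw [sum_pow_top]
  have h2 : ∑ i ∈ range (p - 1), P.coeff i * ∑ x : ZMod p, (em p k x) ^ i = 0 := by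
    apply Finset.sum_eq_zero
    intro i hi
    rw [Finset.mem_range] at hi
    rw [sum_pow_lt i hi, mul_zero]
  rw [h2]; ring

/-- interpolation -/
theorem exists_poly (f : ZMod p → k) :
    ∃ P : k[X], P.natDegree < p ∧ ∀ x, P.eval (em p k x) = f x := by
  have hp : p.Prime := Fact.out
  classical
  refine ⟨Lagrange.interpolate univ (fun x => em p k x) f, ?_, ?_⟩
  · have h1 := Lagrange.degree_interpolate_lt (s := (univ : Finset (ZMod p)))
      (v := fun x => em p k x) f (fun x _ y _ h => em_inj h)
    rw [Finset.card_univ, ZMod.card] at h1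
    by_cases h0 : Lagrange.interpolate univ (fun x => em p k x) f = 0
    · rw [h0, natDegree_zero]; exact hp.pos
    · exact (Polynomial.natDegree_lt_iff_degree_lt h0).mpr h1
  · intro x
    exact Lagrange.eval_interpolate_at_node f (fun x _ y _ h => em_inj h) (mem_univ x)

/-- moments -/
def mom (f : ZMod p → k) (n : ℕ) : k := ∑ x, (em p k x) ^ n * f x

theorem mom_lt (P : k[X]) (n : ℕ) (h : n + P.natDegree < p - 1) :
    mom (fun x => P.eval (em p k x)) n = 0 := by
  rw [mom]
  have h1 : ∀ x : ZMod p, (em p k x) ^ n * P.eval (em p k x)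
      = (X ^ n * P : k[X]).eval (em p k x) := by
    intro x; rw [eval_mul, eval_pow, eval_X]
  simp_rw [h1]
  have h2 : (X ^ n * P : k[X]).natDegree ≤ n + P.natDegree := by
    refine (natDegree_mul_le).trans ?_
    rw [natDegree_X_pow]
  rw [sum_poly _ (by omega), coeff_eq_zero_of_natDegree_lt (by omega), neg_zero]

theorem mom_eq (P : k[X]) (n : ℕ) (h : n + P.natDegree = p - 1) :
    mom (fun x => P.eval (em p k x)) n = -P.leadingCoeff := by
  rw [mom]
  have h1 : ∀ x : ZMod p, (em p k x) ^ n * P.eval (em p k x)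
      = (X ^ n * P : k[X]).eval (em p k x) := by
    intro x; rw [eval_mul, eval_pow, eval_X]
  simp_rw [h1]
  have h2 : (X ^ n * P : k[X]).natDegree ≤ n + P.natDegree := by
    refine (natDegree_mul_le).trans ?_
    rw [natDegree_X_pow]
  rw [sum_poly _ (by omega), ← h, add_comm n, coeff_X_pow_mul, leadingCoeff]

/-- moments of correlations -/
theorem mom_corr (f g : ZMod p → k) (n : ℕ) :
    ∑ a : ZMod p, (em p k a) ^ n * ∑ x, f x * g (x + a)
      = ∑ i ∈ range (n + 1), (n.choose i : k) * (-1) ^ i * (mom f i * mom g (n - i)) := by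
  calc ∑ a : ZMod p, (em p k a) ^ n * ∑ x, f x * g (x + a)
      = ∑ x, ∑ y, (em p k (y - x)) ^ n * (f x * g y) := by
        simp_rw [Finset.mul_sum]
        rw [Finset.sum_comm]
        apply Finset.sum_congr rfl
        intro x _
        rw [← Equiv.sum_comp (Equiv.addLeft x) (fun y => (em p k (y - x)) ^ n * (f x * g y))]
        apply Finset.sum_congr rfl
        intro a _
        simp only [Equiv.coe_addLeft, add_sub_cancel_left]
    _ = ∑ x, ∑ y, ∑ i ∈ range (n + 1), (n.choose i : k) * (-1) ^ i *
          (((em p k x) ^ i * f x) * ((em p k y) ^ (n - i) * g y)) := by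
        apply Finset.sum_congr rfl
        intro x _
        apply Finset.sum_congr rfl
        intro y _
        have e1 : (em p k (y - x)) ^ n = ∑ i ∈ range (n + 1),
            (-em p k x) ^ i * (em p k y) ^ (n - i) * (n.choose i : k) := by
          rw [map_sub, sub_eq_add_neg, add_comm, add_pow]
        rw [e1, Finset.sum_mul]
        apply Finset.sum_congr rfl
        intro i _
        rw [neg_pow]; ring
    _ = _ := by
        simp_rw [mom]
        have h1 : ∀ x, ∑ y, ∑ i ∈ range (n + 1), (n.choose i : k) * (-1) ^ i *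
            (((em p k x) ^ i * f x) * ((em p k y) ^ (n - i) * g y))
            = ∑ i ∈ range (n + 1), ∑ y, (n.choose i : k) * (-1) ^ i *
            (((em p k x) ^ i * f x) * ((em p k y) ^ (n - i) * g y)) :=
          fun x => Finset.sum_comm
        simp_rw [h1]
        rw [Finset.sum_comm]
        apply Finset.sum_congr rfl
        intro i _
        rw [Finset.sum_mul_sum, Finset.mul_sum]
        apply Finset.sum_congr rfl
        intro x _
        rw [Finset.mul_sum]

theorem choose_ne (n i : ℕ) (hn : n < p) (hi : i ≤ n) : (n.choose i : k) ≠ 0 := by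
  have hp : p.Prime := Fact.out
  intro h
  rw [CharP.cast_eq_zero_iff k p] at h
  have h1 : ¬ p ∣ n.choose i := by
    intro h2
    have h3 : p ∣ n.factorial := by
      rw [← Nat.choose_mul_factorial_mul_factorial hi, mul_assoc]
      exact Dvd.dvd.mul_right h2 _
    rw [hp.dvd_factorial] at h3
    omega
  exact h1 h

/-- correlations of functions of high degrees do not vanish -/
theorem deg_lt (P Q : k[X]) (hP : P ≠ 0) (hQ : Q ≠ 0) (hPd : P.natDegree < p)
    (hQd : Q.natDegree < p)
    (h : ∀ a : ZMod p, ∑ x, P.eval (em p k x) * Q.eval (em p k (x + a)) = 0) :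
    P.natDegree + Q.natDegree < p - 1 := by
  have hp : p.Prime := Fact.out
  by_contra hcon
  push Not at hcon
  obtain ⟨i0, hi0⟩ : ∃ i0, i0 + P.natDegree = p - 1 := ⟨p - 1 - P.natDegree, by omega⟩
  obtain ⟨j0, hj0⟩ : ∃ j0, j0 + Q.natDegree = p - 1 := ⟨p - 1 - Q.natDegree, by omega⟩
  have h1 := mom_corr (fun x => P.eval (em p k x)) (fun x => Q.eval (em p k x)) (i0 + j0)
  have h2 : ∑ a : ZMod p, (em p k a) ^ (i0 + j0) *
      ∑ x, P.eval (em p k x) * Q.eval (em p k (x + a)) = 0 := by
    apply Finset.sum_eq_zero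
    intro a _
    rw [h, mul_zero]
  rw [h2, Finset.sum_eq_single i0] at h1
  · rw [mom_eq P i0 hi0, Nat.add_sub_cancel_left, mom_eq Q j0 hj0] at h1
    have h3 : ((i0 + j0).choose i0 : k) ≠ 0 := choose_ne _ _ (by omega) (by omega)
    have h4 : ((-1 : k)) ^ i0 ≠ 0 := pow_ne_zero _ (by simp)
    have h5 : -P.leadingCoeff * -Q.leadingCoeff ≠ 0 :=
      mul_ne_zero (neg_ne_zero.mpr (leadingCoeff_ne_zero.mpr hP))
        (neg_ne_zero.mpr (leadingCoeff_ne_zero.mpr hQ))
    exact mul_ne_zero (mul_ne_zero h3 h4) h5 h1.symm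
  · intro i hi hne
    rw [Finset.mem_range] at hi
    rcases lt_or_gt_of_ne hne with h3 | h3
    · rw [mom_lt P i (by omega)]; ring
    · rw [mom_lt Q (i0 + j0 - i) (by omega)]; ring
  · intro h3
    exact absurd (Finset.mem_range.mpr (by omega)) h3

/-- the number of zeros -/
theorem zeros_le (P : k[X]) (hP : P ≠ 0) (s : Finset (ZMod p)) (hs : ∀ x ∈ s, P.eval (em p k x) = 0) :
    s.card ≤ P.natDegree := by
  classical
  have h1 : (s.image (em p k)).card = s.card := Finset.card_image_of_injective _ em_inj
  rw [← h1]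
  have h2 : s.image (em p k) ⊆ P.roots.toFinset := by
    intro y hy
    obtain ⟨x, hx, rfl⟩ := Finset.mem_image.mp hy
    rw [Multiset.mem_toFinset, mem_roots hP]
    exact hs x hx
  exact (Finset.card_le_card h2).trans ((Multiset.toFinset_card_le _).trans (card_roots' P))

/-- **Low degrees.** -/
theorem low (P Q : k[X]) (hP : P ≠ 0) (hQ : Q ≠ 0) (hPd : P.natDegree < p)
    (hQd : Q.natDegree < p)
    (h : ∀ a : ZMod p, ∑ x, P.eval (em p k x) * Q.eval (em p k (x + a)) = 0)
    (h2 : ∀ a : ZMod p, ∑ x, (P.eval (em p k x) * Q.eval (em p k x)) *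
      (P.eval (em p k (x + a)) * Q.eval (em p k (x + a))) = 0) :
    2 * (P.natDegree + Q.natDegree) < p - 1 := by
  have h1 := deg_lt P Q hP hQ hPd hQd h
  have h3 : (P * Q).natDegree = P.natDegree + Q.natDegree := natDegree_mul hP hQ
  have h4 := deg_lt (P * Q) (P * Q) (mul_ne_zero hP hQ) (mul_ne_zero hP hQ)
    (by omega) (by omega) (by
      intro a
      simp only [eval_mul]
      exact h2 a)
  omega

theorem choose_top (i : ℕ) (hi : i ≤ p - 1) : (((p - 1).choose i : ℕ) : k) * (-1) ^ i = 1 := by
  have hp : p.Prime := Fact.out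
  induction i with
  | zero => simp
  | succ i ih =>
    have h1 := ih (by omega)
    have h2 : (p - 1).choose i + (p - 1).choose (i + 1) = p.choose (i + 1) := by
      have : p = (p - 1) + 1 := by have := hp.pos; omega
      conv_rhs => rw [this]
      rw [Nat.choose_succ_succ]
    have h3 : p ∣ p.choose (i + 1) := hp.dvd_choose_self (by omega) (by omega)
    have h4 : (((p - 1).choose i : ℕ) : k) + (((p - 1).choose (i + 1) : ℕ) : k) = 0 := by
      rw [← Nat.cast_add, h2, CharP.cast_eq_zero_iff k p]
      exact h3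
    rw [pow_succ]
    linear_combination h1 - (-1) ^ i * h4

/-- **There are no two constant frames.** -/
theorem no_const (hp5 : 5 ≤ p) (f g : ZMod p → k) (h1 : ∀ a, ∑ x, f x * g (x + a) = 1)
    (h2 : ∀ a, ∑ x, f x ^ 2 * (g (x + a) * g (x - a)) = if a = 0 then 2 else 0)
    (h3 : ∀ a, ∑ x, g x ^ 2 * (f (x + a) * f (x - a)) = if a = 0 then 2 else 0) : False := by
  have hp : p.Prime := Fact.out
  obtain ⟨P, hPd, hPf⟩ := exists_poly f
  obtain ⟨Q, hQd, hQg⟩ := exists_poly g
  have hP : P ≠ 0 := by
    rintro rfl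
    have h4 := h1 0
    simp only [← hPf, eval_zero, zero_mul, Finset.sum_const_zero] at h4
    exact zero_ne_one h4
  have hQ : Q ≠ 0 := by
    rintro rfl
    have h4 := h1 0
    simp only [← hQg, eval_zero, mul_zero, Finset.sum_const_zero] at h4
    exact zero_ne_one h4
  have hfP : f = fun x => P.eval (em p k x) := funext fun x => (hPf x).symm
  have hgQ : g = fun x => Q.eval (em p k x) := funext fun x => (hQg x).symm
  obtain ⟨i0, hi0⟩ : ∃ i0, i0 + P.natDegree = p - 1 := ⟨p - 1 - P.natDegree, by omega⟩
  obtain ⟨j0, hj0⟩ : ∃ j0, j0 + Q.natDegree = p - 1 := ⟨p - 1 - Q.natDegree, by omega⟩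
  have hmom : ∀ n, n ≤ p - 1 → (if n = p - 1 then (-1 : k) else 0)
      = ∑ i ∈ range (n + 1), (n.choose i : k) * (-1) ^ i * (mom f i * mom g (n - i)) := by
    intro n hn
    rw [← mom_corr]
    simp_rw [h1, mul_one]
    split_ifs with h4
    · rw [h4, sum_pow_top]
    · rw [sum_pow_lt n (by omega)]
  have hf0 : ∀ i, i < i0 → mom f i = 0 := by
    intro i hi; rw [hfP]; exact mom_lt P i (by omega)
  have hg0 : ∀ i, i < j0 → mom g i = 0 := by
    intro i hi; rw [hgQ]; exact mom_lt Q i (by omega)
  have hfi : mom f i0 = -P.leadingCoeff := by rw [hfP]; exact mom_eq P i0 hi0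
  have hgj : mom g j0 = -Q.leadingCoeff := by rw [hgQ]; exact mom_eq Q j0 hj0
  have hlc : P.leadingCoeff * Q.leadingCoeff ≠ 0 :=
    mul_ne_zero (leadingCoeff_ne_zero.mpr hP) (leadingCoeff_ne_zero.mpr hQ)
  -- the sum of the degrees
  have hij : i0 + j0 = p - 1 := by
    by_contra hne
    rcases lt_or_gt_of_ne hne with h4 | h4
    · have h5 := hmom (i0 + j0) h4.le
      rw [if_neg hne, Finset.sum_eq_single i0] at h5
      · rw [hfi, Nat.add_sub_cancel_left, hgj] at h5
        have h6 : ((i0 + j0).choose i0 : k) ≠ 0 := choose_ne _ _ (by omega) (by omega)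
        have h7 : ((-1 : k)) ^ i0 ≠ 0 := pow_ne_zero _ (by simp)
        have h8 : -P.leadingCoeff * -Q.leadingCoeff ≠ 0 := by rwa [neg_mul_neg]
        exact mul_ne_zero (mul_ne_zero h6 h7) h8 h5.symm
      · intro i hi hne
        rw [Finset.mem_range] at hi
        rcases lt_or_gt_of_ne hne with h6 | h6
        · rw [hf0 i h6]; ring
        · rw [hg0 (i0 + j0 - i) (by omega)]; ring
      · intro h6
        exact absurd (Finset.mem_range.mpr (by omega)) h6
    · have h5 := hmom (p - 1) le_rfl
      rw [if_pos rfl] at h5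
      have h6 : ∑ i ∈ range (p - 1 + 1), ((p - 1).choose i : k) * (-1) ^ i *
          (mom f i * mom g (p - 1 - i)) = 0 := by
        apply Finset.sum_eq_zero
        intro i hi
        rw [Finset.mem_range] at hi
        by_cases h7 : i < i0
        · rw [hf0 i h7]; ring
        · rw [hg0 (p - 1 - i) (by omega)]; ring
      rw [h6] at h5
      exact one_ne_zero (neg_eq_zero.mp h5)
  -- the product of the leading coefficients
  have hll : P.leadingCoeff * Q.leadingCoeff = -1 := by
    have h5 := hmom (p - 1) le_rfl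
    rw [if_pos rfl, Finset.sum_eq_single i0] at h5
    · have e1 : p - 1 - i0 = j0 := by omega
      rw [e1, hfi, hgj, choose_top i0 (by omega), one_mul, neg_mul_neg] at h5
      exact h5.symm
    · intro i hi hne
      rw [Finset.mem_range] at hi
      rcases lt_or_gt_of_ne hne with h6 | h6
      · rw [hf0 i h6]; ring
      · rw [hg0 (p - 1 - i) (by omega)]; ring
    · intro h6
      exact absurd (Finset.mem_range.mpr (by omega)) h6
  -- a lower bound for the degrees
  have h20 : (2 : k) ≠ 0 := by
    intro h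
    have h4 : ((2 : ℕ) : k) = 0 := by exact_mod_cast h
    rw [CharP.cast_eq_zero_iff k p] at h4
    have := Nat.le_of_dvd two_pos h4
    omega
  have key : ∀ (R : k[X]) (F : ZMod p → k), R.natDegree < p →
      (∀ a : ZMod p, ∑ x, F x ^ 2 * (R.eval (em p k (x + a)) * R.eval (em p k (x - a)))
        = if a = 0 then 2 else 0) → p - 1 ≤ 2 * R.natDegree := by
    intro R F hR h4
    by_contra hcon
    push Not at hcon
    have h5 : ∑ a : ZMod p, ∑ x, F x ^ 2 * (R.eval (em p k (x + a)) * R.eval (em p k (x - a)))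
        = 0 := by
      rw [Finset.sum_comm]
      apply Finset.sum_eq_zero
      intro x _
      rw [← Finset.mul_sum]
      have h6 : ∀ a : ZMod p, R.eval (em p k (x + a)) * R.eval (em p k (x - a))
          = ((R.comp (C (em p k x) + X)) * (R.comp (C (em p k x) - X))).eval (em p k a) := by
        intro a
        rw [eval_mul, eval_comp, eval_comp, eval_add, eval_sub, eval_C, eval_X, map_add, map_sub]
      simp_rw [h6]
      have h7 : ((R.comp (C (em p k x) + X)) * (R.comp (C (em p k x) - X))).natDegree
          ≤ 2 * R.natDegree := by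
        refine natDegree_mul_le.trans ?_
        rw [natDegree_comp, natDegree_comp]
        have e1 : (C (em p k x) + X : k[X]).natDegree ≤ 1 := by compute_degree
        have e2 : (C (em p k x) - X : k[X]).natDegree ≤ 1 := by compute_degree
        nlinarith [Nat.mul_le_mul_left R.natDegree e1, Nat.mul_le_mul_left R.natDegree e2]
      rw [sum_poly _ (by omega), coeff_eq_zero_of_natDegree_lt (by omega), neg_zero, mul_zero]
    simp_rw [h4] at h5
    rw [Finset.sum_ite_eq' univ (0 : ZMod p), if_pos (mem_univ _)] at h5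
    exact h20 h5
  have hQh := key Q f hQd (by
    intro a
    rw [← h2 a]
    apply Finset.sum_congr rfl
    intro x _
    rw [hQg, hQg])
  have hPh := key P g hPd (by
    intro a
    rw [← h3 a]
    apply Finset.sum_congr rfl
    intro x _
    rw [hPf, hPf])
  obtain ⟨h, hh⟩ : ∃ h, 2 * h = p - 1 := by
    rcases hp.eq_two_or_odd with h4 | h4
    · omega
    · exact ⟨(p - 1) / 2, by omega⟩
  have hQe : Q.natDegree = h := by omega
  have hPe : P.natDegree = h := by omega
  -- the inner sums
  have h5 : ∀ x : ZMod p, ∑ a : ZMod p, g (x + a) * g (x - a)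
      = -((-1) ^ h * Q.leadingCoeff ^ 2) := by
    intro x
    have h6 : ∀ a : ZMod p, g (x + a) * g (x - a)
        = ((Q.comp (C (em p k x) + X)) * (Q.comp (C (em p k x) - X))).eval (em p k a) := by
      intro a
      rw [eval_mul, eval_comp, eval_comp, eval_add, eval_sub, eval_C, eval_X, ← map_add, ← map_sub,
        hQg, hQg]
    simp_rw [h6]
    have e1 : (C (em p k x) + X : k[X]).natDegree = 1 := by compute_degree!
    have e2 : (C (em p k x) - X : k[X]).natDegree = 1 := by compute_degree!
    have e3 : (Q.comp (C (em p k x) + X)).natDegree = h := by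
      rw [natDegree_comp, e1, hQe, mul_one]
    have e4 : (Q.comp (C (em p k x) - X)).natDegree = h := by
      rw [natDegree_comp, e2, hQe, mul_one]
    have e5 : (C (em p k x) + X : k[X]).leadingCoeff = 1 := by
      rw [leadingCoeff, e1]; simp
    have e6 : (C (em p k x) - X : k[X]).leadingCoeff = -1 := by
      rw [leadingCoeff, e2]; simp
    have e7 : (Q.comp (C (em p k x) + X)).leadingCoeff = Q.leadingCoeff := by
      rw [leadingCoeff_comp (by rw [e1]; exact one_ne_zero), e5, one_pow, mul_one]
    have e8 : (Q.comp (C (em p k x) - X)).leadingCoeff = Q.leadingCoeff * (-1) ^ h := by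
      rw [leadingCoeff_comp (by rw [e2]; exact one_ne_zero), e6, hQe]
    have e9 : (Q.comp (C (em p k x) + X) * Q.comp (C (em p k x) - X)).natDegree ≤ p - 1 := by
      refine natDegree_mul_le.trans ?_
      omega
    have e10 : (Q.comp (C (em p k x) + X) * Q.comp (C (em p k x) - X)).coeff (p - 1)
        = Q.leadingCoeff * (Q.leadingCoeff * (-1) ^ h) := by
      have e11 : p - 1 = (Q.comp (C (em p k x) + X)).natDegree +
          (Q.comp (C (em p k x) - X)).natDegree := by rw [e3, e4]; omega
      rw [e11, coeff_mul_degree_add_degree, e7, e8]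
    rw [sum_poly _ e9, e10]
    ring
  have h6 : ∑ a : ZMod p, ∑ x, f x ^ 2 * (g (x + a) * g (x - a)) = (2 : k) := by
    simp_rw [h2]
    rw [Finset.sum_ite_eq' univ (0 : ZMod p), if_pos (mem_univ _)]
  rw [Finset.sum_comm] at h6
  simp_rw [← Finset.mul_sum, h5] at h6
  rw [← Finset.sum_mul] at h6
  have h7 : ∑ x, f x ^ 2 = -(P.leadingCoeff ^ 2) := by
    have h8 : ∀ x, f x ^ 2 = (P * P).eval (em p k x) := by
      intro x; rw [eval_mul, hPf]; ring
    simp_rw [h8]
    rw [sum_poly _ (natDegree_mul_le.trans (by omega))]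
    have e11 : p - 1 = P.natDegree + P.natDegree := by omega
    rw [e11, coeff_mul_degree_add_degree]
    ring
  rw [h7] at h6
  have h8 : ((-1 : k)) ^ h = 2 := by
    rw [← h6]
    have h9 : P.leadingCoeff ^ 2 * Q.leadingCoeff ^ 2 = 1 := by
      rw [← mul_pow, hll]; ring
    linear_combination (-((-1 : k) ^ h)) * h9
  rcases neg_one_pow_eq_or k h with h9 | h9
  · rw [h9] at h8
    have h10 : ((1 : ℕ) : k) = 0 := by push_cast; linear_combination -h8
    rw [CharP.cast_eq_zero_iff k p] at h10
    have := Nat.le_of_dvd one_pos h10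
    omega
  · rw [h9] at h8
    have h10 : ((3 : ℕ) : k) = 0 := by push_cast; linear_combination -h8
    rw [CharP.cast_eq_zero_iff k p] at h10
    have := Nat.le_of_dvd (by norm_num) h10
    omega

end Pool.Agent.H990.SP
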